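import Pool.Agent.Q149.HSp
import Pool.Agent.Helper531.Sine

set_option autoImplicit false

open Set Topology Pool.Agent.Q149.HSp Pool.Agent.Helper531

namespace Pool.Agent.Results.MP_53bf97_gt.NotAposyndetic

/-- on the closed sine curve there is no continuum neighbourhood of `(0, 0)` missing `(0, 1)` -/
theorem sine_not (a p : Sine.X) (ha : (a : ℝ × ℝ) = (0, 0)) (hp : (p : ℝ × ℝ) = (0, 1)) :
    ¬ AposyndeticAt a p := by
  rintro ⟨K, -, hK, hKc, haK, hpK⟩
  apply hpK
  -- a point of the curve close to `a`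
  obtain ⟨t, ht0, ht1, htK⟩ : ∃ t : ℝ, ∃ h0 : 0 < t, ∃ h1 : t ≤ 1,
      (⟨Sine.g t, Sine.g_mem h0 h1⟩ : Sine.X) ∈ K := by
    obtain ⟨U, hU, hUK⟩ := isOpen_induced_iff.1 (isOpen_interior (s := K))
    have haU : ((0 : ℝ), (0 : ℝ)) ∈ U := by
      rw [← ha]
      change a ∈ Subtype.val ⁻¹' U
      rw [hUK]; exact haK
    have hcl := Sine.bar_mem_closure (y := 0) (t := 1) (by norm_num) one_pos
    obtain ⟨_, hzU, t, ht, rfl⟩ := mem_closure_iff.1 hcl U hU haU
    refine ⟨t, ht.1, ht.2.le, ?_⟩
    apply interior_subset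
    rw [← hUK]
    exact hzU
  have haK' : a ∈ K := interior_subset haK
  -- the curve to the left of `t` is in `K`
  have hsub : ∀ s, ∀ h0 : 0 < s, ∀ h1 : s < t, (⟨Sine.g s, Sine.g_mem h0 (h1.le.trans ht1)⟩ :
      Sine.X) ∈ K := by
    intro s h0 h1
    by_contra hcon
    have hx : Continuous fun z : Sine.X => (z : ℝ × ℝ).1 :=
      continuous_fst.comp continuous_subtype_val
    obtain ⟨z, -, hz1, hz2⟩ := hKc.isPreconnected {z : Sine.X | (z : ℝ × ℝ).1 < s}
      {z : Sine.X | s < (z : ℝ × ℝ).1} (isOpen_lt hx continuous_const)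
      (isOpen_lt continuous_const hx)
      (by
        intro z hz
        rcases lt_trichotomy (z : ℝ × ℝ).1 s with h | h | h
        · exact Or.inl h
        · exfalso
          apply hcon
          have : z = ⟨Sine.g s, Sine.g_mem h0 (h1.le.trans ht1)⟩ := by
            apply Subtype.ext
            rw [Sine.eq_g z.2 (by rw [h]; exact h0), h]
          rw [← this]; exact hz
        · exact Or.inr h)
      ⟨a, haK', by rw [mem_ofPred_eq, ha]; exact h0⟩
      ⟨_, htK, h1⟩
    exact lt_asymm (show (z : ℝ × ℝ).1 < s from hz1) (show s < (z : ℝ × ℝ).1 from hz2)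
  have hcl := Sine.bar_mem_closure (y := 1) (t := t) (by norm_num) ht0
  have hpc : p ∈ closure K := by
    rw [mem_closure_iff]
    intro O hO hpO
    obtain ⟨U, hU, rfl⟩ := isOpen_induced_iff.1 hO
    have hpU : ((0 : ℝ), (1 : ℝ)) ∈ U := by rw [← hp]; exact hpO
    obtain ⟨_, hzU, s, hs, rfl⟩ := mem_closure_iff.1 hcl U hU hpU
    exact ⟨_, hzU, hsub s hs.1 hs.2⟩
  rwa [hK.closure_eq] at hpc

/-- There are a continuum `X` (the closed sine curve) and a point `p` of `X` such that `HS(p, X)`
is not aposyndetic. -/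
theorem result : ∃ (X : Type) (_ : MetricSpace X), CompactSpace X ∧ ConnectedSpace X ∧
    Nontrivial X ∧ ∃ p : X, ¬ Aposyndetic (HS X p) := by
  have : CompactSpace Sine.X := isCompact_iff_compactSpace.1 Sine.X_compact
  have : ConnectedSpace Sine.X := isConnected_iff_connectedSpace.1 Sine.X_connected
  let a : Sine.X := ⟨(0, 0), by norm_num [Sine.X]⟩
  let p : Sine.X := ⟨(0, 1), by norm_num [Sine.X]⟩
  have hap : a ≠ p := by
    intro h
    have := congrArg (fun z : Sine.X => (z : ℝ × ℝ).2) h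
    norm_num [a, p] at this
  refine ⟨Sine.X, inferInstance, inferInstance, inferInstance, ⟨a, p, hap⟩, p, ?_⟩
  intro h
  refine sine_not a p rfl rfl (apo_down hap (h _ _ ?_))
  intro he
  rcases pr_eq.1 he with h' | h'
  · have := congrArg (fun C : CX Sine.X => (C.1 : Set Sine.X)) h'
    simp only [sing_coe] at this
    exact hap (singleton_injective this)
  · rw [sing_coe] at h'
    exact hap h'.1.symm

end Pool.Agent.Results.MP_53bf97_gt.NotAposyndetic
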