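import Pool.Agent.Q149.HSp

set_option autoImplicit false

open Set Topology Pool.Agent.Q149.HSp

namespace Pool.Agent.Results.MP_53bf97_gt.SemiAposyndetic

/-- For every continuum `X` and every point `p` of `X` the continuum `HS(p, X)` is
semi-aposyndetic. -/
theorem result (X : Type) [MetricSpace X] [CompactSpace X] [ConnectedSpace X] (p : X) :
    SemiAposyndetic (HS X p) :=
  semi p

end Pool.Agent.Results.MP_53bf97_gt.SemiAposyndetic
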